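import Pool.Agent.Q289.OC.Stm
import Pool.Agent.Y998.ST.Exp
import Pool.Agent.Results.MP_c0051b_pr.TranspositionLpCutoff

/-!
# Return probabilities of the interchange process from a comparison with random transpositions
-/

set_option autoImplicit false

namespace Q174.OC

open Equiv Finset
open scoped InnerProductSpace Nat
open Pool.Agent.Results.MP_c0051b_pr.TranspositionLpCutoff

noncomputable section

variable {n : ℕ}

/-- right regular representation -/
def rr (n : ℕ) : Perm (Fin n) →* (RT.L2 n →ₗ[ℝ] RT.L2 n) where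
  toFun g := RT.rt g
  map_one' := by
    ext f h
    rw [RT.rt_apply, mul_one]; rfl
  map_mul' g g' := by
    ext f h
    rw [RT.rt_apply, ← mul_assoc]; rfl

theorem rr_apply (g h : Perm (Fin n)) (f : RT.L2 n) : rr n g f h = f (h * g) := rfl

theorem unit_rr (n : ℕ) : RT.Unit (rr n) := by
  intro g v w
  rw [RT.inner_L2, RT.inner_L2]
  simp_rw [rr_apply]
  exact Equiv.sum_comp (Equiv.mulRight g) fun σ => v σ * w σ

/-- minus the generator of the interchange process -/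
def Aop (c : Fin n → Fin n → ℝ) : RT.L2 n →ₗ[ℝ] RT.L2 n :=
  (1 / 2 : ℝ) • ∑ u, ∑ v, c u v • (LinearMap.id - rr n (swap u v))

theorem Aop_apply (c : Fin n → Fin n → ℝ) (f : RT.L2 n) :
    Aop c f = (1 / 2 : ℝ) • ∑ u, ∑ v, c u v • (f - rr n (swap u v) f) := by
  simp [Aop, LinearMap.sum_apply]

theorem Aop_apply' (c : Fin n → Fin n → ℝ) (f : RT.L2 n) (σ : Perm (Fin n)) :
    Aop c f σ = (1 / 2 : ℝ) * ∑ u, ∑ v, c u v * (f σ - f (σ * swap u v)) := by
  rw [Aop_apply, PiLp.smul_apply, RT.sum_apply', smul_eq_mul]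
  congr 1
  refine Finset.sum_congr rfl fun u _ => ?_
  rw [RT.sum_apply']
  refine Finset.sum_congr rfl fun v _ => ?_
  rw [PiLp.smul_apply, PiLp.sub_apply, rr_apply, smul_eq_mul]

theorem ipGen_mulVec (c : Fin n → Fin n → ℝ) (f : RT.L2 n) (σ : Perm (Fin n)) :
    ∑ τ, Q289.OC.ipGen c σ τ * f τ = -Aop c f σ := by
  rw [Aop_apply']
  simp only [Q289.OC.ipGen, Matrix.of_apply]
  have h1 : ∀ τ, (1 / 2 : ℝ) * (∑ u, ∑ v,
      c u v * ((if τ = σ * swap u v then 1 else 0) - (if τ = σ then 1 else 0))) * f τ =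
      (1 / 2 : ℝ) * ∑ u, ∑ v,
      c u v * (((if τ = σ * swap u v then 1 else 0) - (if τ = σ then 1 else 0)) * f τ) := by
    intro τ
    rw [mul_assoc, Finset.sum_mul]
    congr 1
    refine Finset.sum_congr rfl fun u _ => ?_
    rw [Finset.sum_mul]
    exact Finset.sum_congr rfl fun v _ => by ring
  rw [Finset.sum_congr rfl fun τ _ => h1 τ, ← Finset.mul_sum, Finset.sum_comm, ← mul_neg,
    ← Finset.sum_neg_distrib]
  congr 1
  refine Finset.sum_congr rfl fun u _ => ?_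
  rw [Finset.sum_comm, ← Finset.sum_neg_distrib]
  refine Finset.sum_congr rfl fun v _ => ?_
  rw [← Finset.mul_sum]
  simp only [sub_mul, ite_mul, one_mul, zero_mul, Finset.sum_sub_distrib, Finset.sum_ite_eq',
    mem_univ, if_true]
  ring

theorem Aop_symm (c : Fin n → Fin n → ℝ) : RT.Sym (Aop c) := by
  intro v w
  rw [Aop_apply, Aop_apply, real_inner_smul_left, real_inner_smul_right, sum_inner, inner_sum]
  congr 1
  refine Finset.sum_congr rfl fun i _ => ?_
  rw [sum_inner, inner_sum]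
  refine Finset.sum_congr rfl fun j _ => ?_
  rw [real_inner_smul_left, real_inner_smul_right, inner_sub_left, inner_sub_right,
    (unit_rr n).swap_symm]

theorem Aop_quad (c : Fin n → Fin n → ℝ) (w : RT.L2 n) :
    ∑ x, ∑ y, c x y * Q289.OC.DD (rr n) w x y = 2 * ⟪Aop c w, w⟫_ℝ := by
  rw [Aop_apply, real_inner_smul_left, sum_inner, ← mul_assoc]
  norm_num
  refine Finset.sum_congr rfl fun i _ => ?_
  rw [sum_inner]
  refine Finset.sum_congr rfl fun j _ => ?_
  rw [real_inner_smul_left, inner_sub_left, Q289.OC.DD, Q289.OC.mc, Q289.OC.mc, map_one]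
  rfl

theorem KK_quad (hn : 0 < n) (w : RT.L2 n) :
    ∑ x, ∑ y, Q289.OC.DD (rr n) w x y = (n : ℝ) ^ 2 * (‖w‖ ^ 2 - ⟪RT.KK (rr n) w, w⟫_ℝ) := by
  have hn' : ((n : ℝ) ^ 2) ≠ 0 := by positivity
  rw [RT.KK_apply, real_inner_smul_left, mul_sub, mul_inv_cancel_left₀ hn', sum_inner]
  simp only [sum_inner, Q289.OC.DD, Q289.OC.mc, Finset.sum_sub_distrib]
  congr 1
  rw [map_one]
  simp only [Finset.sum_const, Finset.card_univ, Fintype.card_fin, nsmul_eq_mul, sq]
  show (n : ℝ) * (n * ⟪w, w⟫_ℝ) = _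
  rw [real_inner_self_eq_norm_sq]
  ring

theorem Cen_Aop {S : RT.L2 n →ₗ[ℝ] RT.L2 n} (hS : RT.Cen (rr n) S) (c : Fin n → Fin n → ℝ)
    (f : RT.L2 n) : S (Aop c f) = Aop c (S f) := by
  rw [Aop_apply, Aop_apply, map_smul, map_sum]
  congr 1
  refine Finset.sum_congr rfl fun u _ => ?_
  rw [map_sum]
  refine Finset.sum_congr rfl fun v _ => ?_
  rw [map_smul, map_sub, hS]

open Pool.Agent.Y998.ST (E)

/-- the semigroup of the interchange process -/
def Eop (c : Fin n → Fin n → ℝ) (t : ℝ) : RT.L2 n →ₗ[ℝ] RT.L2 n where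
  toFun f := WithLp.toLp 2 (fun σ => ∑ τ, E (Q289.OC.ipGen c) t σ τ * f τ)
  map_add' f g := by
    ext σ
    show ∑ τ, _ * ((f + g) τ) = (∑ τ, _ * f τ) + ∑ τ, _ * g τ
    rw [← Finset.sum_add_distrib]
    exact Finset.sum_congr rfl fun τ _ => by rw [PiLp.add_apply, mul_add]
  map_smul' a f := by
    ext σ
    show ∑ τ, _ * ((a • f) τ) = a * (∑ τ, _ * f τ)
    rw [Finset.mul_sum]
    exact Finset.sum_congr rfl fun τ _ => by rw [PiLp.smul_apply, smul_eq_mul]; ring

theorem Eop_apply (c : Fin n → Fin n → ℝ) (t : ℝ) (f : RT.L2 n) (σ : Perm (Fin n)) :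
    Eop c t f σ = ∑ τ, E (Q289.OC.ipGen c) t σ τ * f τ := rfl

theorem ipGen_symm (c : Fin n → Fin n → ℝ) (σ τ : Perm (Fin n)) :
    Q289.OC.ipGen c σ τ = Q289.OC.ipGen c τ σ := by
  simp only [Q289.OC.ipGen, Matrix.of_apply]
  congr 1
  refine Finset.sum_congr rfl fun u _ => Finset.sum_congr rfl fun v _ => ?_
  have h1 : τ = σ * swap u v ↔ σ = τ * swap u v := by
    constructor
    · rintro rfl; rw [mul_assoc, swap_mul_self, mul_one]
    · rintro rfl; rw [mul_assoc, swap_mul_self, mul_one]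
  have h2 : τ = σ ↔ σ = τ := eq_comm
  rw [if_congr h1 rfl rfl, if_congr h2 rfl rfl]

theorem E_symm (c : Fin n → Fin n → ℝ) (t : ℝ) (σ τ : Perm (Fin n)) :
    E (Q289.OC.ipGen c) t σ τ = E (Q289.OC.ipGen c) t τ σ := by
  have h0 : (t • Q289.OC.ipGen c).transpose = t • Q289.OC.ipGen c := by
    ext a b
    rw [Matrix.transpose_apply, Matrix.smul_apply, Matrix.smul_apply, ipGen_symm]
  have h1 := Matrix.exp_transpose (t • Q289.OC.ipGen c)
  rw [h0] at h1
  have h2 := congrFun (congrFun h1 σ) τ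
  exact h2

theorem Eop_symm (c : Fin n → Fin n → ℝ) (t : ℝ) : RT.Sym (Eop c t) := by
  intro v w
  rw [RT.inner_L2, RT.inner_L2]
  simp only [Eop_apply, Finset.sum_mul, Finset.mul_sum]
  rw [Finset.sum_comm]
  refine Finset.sum_congr rfl fun σ _ => Finset.sum_congr rfl fun τ _ => ?_
  rw [E_symm c t τ σ]
  ring

theorem E_comm (c : Fin n → Fin n → ℝ) (t : ℝ) :
    E (Q289.OC.ipGen c) t * Q289.OC.ipGen c = Q289.OC.ipGen c * E (Q289.OC.ipGen c) t := by
  ext σ τ
  exact (Pool.Agent.Y998.ST.E_deriv' (Q289.OC.ipGen c) t σ τ).unique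
    (Pool.Agent.Y998.ST.E_deriv (Q289.OC.ipGen c) t σ τ)

theorem Eop_Aop (c : Fin n → Fin n → ℝ) (t : ℝ) (f : RT.L2 n) :
    Eop c t (Aop c f) = Aop c (Eop c t f) := by
  ext σ
  have h1 : ∀ g : RT.L2 n, ∀ σ, Aop c g σ = -∑ τ, Q289.OC.ipGen c σ τ * g τ := by
    intro g σ; rw [ipGen_mulVec, neg_neg]
  rw [Eop_apply, h1]
  simp only [h1, Eop_apply, mul_neg, Finset.sum_neg_distrib]
  congr 1
  simp only [Finset.mul_sum]
  have h2 := E_comm c t
  rw [Finset.sum_comm, Finset.sum_comm (f := fun x y => Q289.OC.ipGen c σ x *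
    (E (Q289.OC.ipGen c) t x y * f y))]
  refine Finset.sum_congr rfl fun y _ => ?_
  have h3 := congrFun (congrFun h2 σ) y
  rw [Matrix.mul_apply, Matrix.mul_apply] at h3
  simp only [← mul_assoc, ← Finset.sum_mul]
  rw [h3]

open scoped Matrix.Norms.Operator in
theorem Eop_eig (c : Fin n → Fin n → ℝ) (t : ℝ) (w : RT.L2 n) (α : ℝ)
    (h : Aop c w = α • w) : Eop c t w = Real.exp (-(t * α)) • w := by
  have hQ : ∀ σ, ∑ τ, Q289.OC.ipGen c σ τ * w τ = -α * w σ := by
    intro σ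
    rw [ipGen_mulVec, h, PiLp.smul_apply, smul_eq_mul]; ring
  have hk : ∀ k : ℕ, ∀ σ, ∑ τ, ((Q289.OC.ipGen c) ^ k) σ τ * w τ = (-α) ^ k * w σ := by
    intro k
    induction k with
    | zero =>
      intro σ
      rw [pow_zero, pow_zero, one_mul]
      simp [Matrix.one_apply]
    | succ k ih =>
      intro σ
      rw [pow_succ']
      simp only [Matrix.mul_apply, Finset.sum_mul]
      rw [Finset.sum_comm]
      have : ∀ y, ∑ x, Q289.OC.ipGen c σ y * ((Q289.OC.ipGen c) ^ k) y x * w x =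
          (-α) ^ k * (Q289.OC.ipGen c σ y * w y) := by
        intro y
        have h5 := ih y
        calc _ = Q289.OC.ipGen c σ y * ∑ x, ((Q289.OC.ipGen c) ^ k) y x * w x := by
              rw [Finset.mul_sum]; exact Finset.sum_congr rfl fun x _ => by ring
          _ = _ := by rw [h5]; ring
      rw [Finset.sum_congr rfl fun y _ => this y, ← Finset.mul_sum, hQ, pow_succ]
      ring
  ext σ
  rw [Eop_apply, PiLp.smul_apply, smul_eq_mul]
  have h1 : ∀ τ, HasSum (fun k : ℕ => t ^ k / (k.factorial : ℝ) * ((Q289.OC.ipGen c) ^ k) σ τ * w τ)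
      (E (Q289.OC.ipGen c) t σ τ * w τ) := fun τ =>
    (Pool.Agent.Y998.ST.E_hasSum (Q289.OC.ipGen c) t σ τ).mul_right _
  have h2 := hasSum_sum (s := univ) fun τ _ => h1 τ
  have h3 : (fun k : ℕ => ∑ τ, t ^ k / (k.factorial : ℝ) * ((Q289.OC.ipGen c) ^ k) σ τ * w τ) =
      fun k : ℕ => (-(t * α)) ^ k / (k.factorial : ℝ) * w σ := by
    funext k
    have h6 := hk k σ
    calc _ = t ^ k / (k.factorial : ℝ) * ∑ τ, ((Q289.OC.ipGen c) ^ k) σ τ * w τ := by
          rw [Finset.mul_sum]; exact Finset.sum_congr rfl fun x _ => by ring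
      _ = _ := by
          rw [h6]
          have : (-(t * α)) ^ k = t ^ k * (-α) ^ k := by rw [← mul_pow]; ring
          rw [this]; ring
  rw [h3] at h2
  have h4 : HasSum (fun k : ℕ => (-(t * α)) ^ k / (k.factorial : ℝ) * w σ)
      (Real.exp (-(t * α)) * w σ) := by
    have h7 := NormedSpace.expSeries_div_hasSum_exp (-(t * α))
    rw [← Real.exp_eq_exp_ℝ] at h7
    exact h7.mul_right _
  exact h2.unique h4

/-- the bound of the eigenvalue on a subrepresentation -/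
theorem level_case (hn : 2 ≤ n) (E : Submodule ℝ (RT.L2 n))
    (hE : ∀ g, ∀ v ∈ E, rr n g v ∈ E) (hne : E ≠ ⊥) {p g r : ℝ} (hp0 : 0 < p)
    (hp1 : n * p ≤ 1 / 2) (hg : ∀ v ∈ E, RT.Gp (rr n) p v = g • v)
    (hr : ∀ v ∈ E, RT.KK (rr n) v = r • v) :
    ∃ k : ℕ, k * (1 / (2 * n)) ≤ 1 - r ∧ p ^ k * (1 / 2) ≤ g ∧ (k = 0 → g = 1) := by
  have hn0 : 0 < n := by omega
  have hnR : (0 : ℝ) < n := by exact_mod_cast hn0
  have hnR2 : (2 : ℝ) ≤ n := by exact_mod_cast hn
  have hpp : p ≤ 1 := by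
    nlinarith
  obtain ⟨A, ⟨v, hvE, hv0, hv⟩, hA⟩ := RT.exists_level E hE hne
  have hvn : 0 < ‖v‖ ^ 2 := by positivity
  have hk : A.card ≤ n := RT.card_le' A
  have hkR : (A.card : ℝ) ≤ n := by exact_mod_cast hk
  have h1 := (unit_rr n).Gp_ge hp0.le hpp A hv
  rw [hg v hvE, real_inner_smul_left, real_inner_self_eq_norm_sq] at h1
  have h2 : p ^ A.card * (1 - p) ^ (n - A.card) ≤ g := le_of_mul_le_mul_right h1 hvn
  have hq : 0 ≤ 1 - p := by linarith
  have h3 : (1 / 2 : ℝ) ≤ (1 - p) ^ (n - A.card) := by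
    have h4 : (1 - p) ^ n ≤ (1 - p) ^ (n - A.card) :=
      pow_le_pow_of_le_one hq (by linarith) (Nat.sub_le _ _)
    have h5 := one_add_mul_le_pow (a := -p) (by linarith) n
    have h6 : 1 + (n : ℝ) * -p ≤ (1 - p) ^ n := by
      rw [← sub_eq_add_neg] at h5; exact h5
    linarith
  refine ⟨A.card, ?_, ?_, ?_⟩
  · rcases Nat.eq_zero_or_pos A.card with h0 | h0
    · rw [h0]
      have h4 := (unit_rr n).abs_eig_le hn0 hv0 (hr v hvE)
      have := (abs_le.mp h4).2
      norm_num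
      linarith
    · have hk1 : (1 : ℝ) ≤ A.card := by exact_mod_cast h0
      by_cases h5 : 2 * A.card ≤ n
      · have h6 := ((unit_rr n).level_bound E A hvE hv0 hv hA (hr v hvE) hn0).2
        have h7 : (2 * (A.card : ℝ)) ≤ n := by exact_mod_cast h5
        have h8 : (A.card : ℝ) * (1 / (2 * n)) ≤
            2 * A.card * (n - A.card + 1) / (n : ℝ) ^ 2 := by
          rw [le_div_iff₀ (by positivity)]
          have : (A.card : ℝ) * (1 / (2 * n)) * (n : ℝ) ^ 2 = A.card * (n / 2) := by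
            field_simp
          rw [this]
          nlinarith
        linarith
      · push Not at h5
        have h7 : (n : ℝ) + 1 ≤ 2 * A.card := by exact_mod_cast h5
        rcases Nat.lt_or_ge A.card n with h9 | h9
        · have h6 := (unit_rr n).high_bound E hE (m := n - A.card) (by omega) (Nat.sub_le _ _)
            (by
              intro B hB w hw
              have h10 := hA Bᶜ (by rw [RT.card_compl', hB]; omega) w hw
              rwa [compl_compl] at h10) hvE hv0 (hr v hvE) hn0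
          rw [Nat.cast_sub hk] at h6
          have h8 : (A.card : ℝ) * (1 / (2 * n)) ≤
              ((n : ℝ) - (n - A.card)) * (n - (n - A.card) + 1) / (n : ℝ) ^ 2 := by
            rw [le_div_iff₀ (by positivity)]
            have : (A.card : ℝ) * (1 / (2 * n)) * (n : ℝ) ^ 2 = A.card * (n / 2) := by
              field_simp
            rw [this]
            nlinarith
          linarith
        · have h11 : A.card = n := le_antisymm hk h9
          have h6 := (unit_rr n).high_bound E hE (m := 1) le_rfl (by omega)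
            (by
              intro B hB w hw
              have h10 := hA Bᶜ (by rw [RT.card_compl', hB]; omega) w hw
              rwa [compl_compl] at h10) hvE hv0 (hr v hvE) hn0
          rw [h11]
          have h8 : (n : ℝ) * (1 / (2 * n)) ≤
              ((n : ℝ) - (1 : ℕ)) * (n - (1 : ℕ) + 1) / (n : ℝ) ^ 2 := by
            rw [le_div_iff₀ (by positivity)]
            have : (n : ℝ) * (1 / (2 * n)) * (n : ℝ) ^ 2 = n * (n / 2) := by
              field_simp
            rw [this]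
            push_cast
            nlinarith
          linarith
  · calc p ^ A.card * (1 / 2) ≤ p ^ A.card * (1 - p) ^ (n - A.card) := by gcongr
      _ ≤ g := h2
  · intro h0
    have h4 : A = ∅ := Finset.card_eq_zero.mp h0
    rw [h4, Finset.compl_empty] at hv
    have h5 := RT.Gp_inv p hv
    rw [hg v hvE] at h5
    have h6 : (g - 1) • v = 0 := by rw [sub_smul, one_smul, h5, sub_self]
    rcases smul_eq_zero.mp h6 with h7 | h7
    · linarith
    · exact absurd h7 hv0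

set_option linter.unusedVariables false in
/-- the operator inequality -/
theorem Eop_le_Gp (hn : 2 ≤ n) (c : Fin n → Fin n → ℝ) {κ t p : ℝ}
    (hκ : 0 < κ) (ht : 0 ≤ t) (hp0 : 0 < p) (hp1 : n * p ≤ 1 / 2)
    (hexp : Real.exp (-(t * κ / 4)) ≤ p / 2)
    (H : ∀ v : RT.L2 n, κ * ((1 / n) * ∑ x, ∑ y, Q289.OC.DD (rr n) v x y) ≤
      ∑ x, ∑ y, c x y * Q289.OC.DD (rr n) v x y) (v : RT.L2 n) :
    ⟪Eop c t v, v⟫_ℝ ≤ ⟪RT.Gp (rr n) p v, v⟫_ℝ := by
  have hn0 : 0 < n := by omega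
  have hnR : (0 : ℝ) < n := by exact_mod_cast hn0
  have hX : RT.Sym (RT.Gp (rr n) p - Eop c t) := ((unit_rr n).Gp_symm p).sub (Eop_symm c t)
  have key := RT.nonneg_of_eig hX ?_ v
  · rw [LinearMap.sub_apply, inner_sub_left] at key
    linarith
  intro x w hw0 hw
  -- first eigenvector: of `Aop`
  have hcA : ∀ f, (RT.Gp (rr n) p - Eop c t) (Aop c f) = Aop c ((RT.Gp (rr n) p - Eop c t) f) := by
    intro f
    rw [LinearMap.sub_apply, LinearMap.sub_apply, map_sub, Cen_Aop (RT.cen_Gp p), Eop_Aop]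
  let F₁ : Submodule ℝ (RT.L2 n) :=
    LinearMap.ker ((RT.Gp (rr n) p - Eop c t) - x • LinearMap.id)
  have hF₁ : ∀ u, u ∈ F₁ ↔ (RT.Gp (rr n) p - Eop c t) u = x • u := by
    intro u
    rw [LinearMap.mem_ker, LinearMap.sub_apply, LinearMap.smul_apply,
      LinearMap.id_apply, sub_eq_zero]
  obtain ⟨α, w₁, hw₁F, hw₁0, hw₁⟩ := RT.exists_eig (Aop_symm c) F₁ (by
      intro u hu
      rw [hF₁] at hu ⊢
      rw [hcA, hu, map_smul]) (by
      intro h
      have h1 : w ∈ F₁ := (hF₁ w).mpr hw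
      rw [h, Submodule.mem_bot] at h1
      exact hw0 h1)
  rw [hF₁, LinearMap.sub_apply, Eop_eig c t w₁ α hw₁, sub_eq_iff_eq_add, ← add_smul] at hw₁F
  set g : ℝ := x + Real.exp (-(t * α)) with hgdef
  -- second eigenvector: of `KK`
  let F₂ : Submodule ℝ (RT.L2 n) :=
    LinearMap.ker (Aop c - α • LinearMap.id) ⊓ LinearMap.ker (RT.Gp (rr n) p - g • LinearMap.id)
  have hF₂ : ∀ u, u ∈ F₂ ↔ Aop c u = α • u ∧ RT.Gp (rr n) p u = g • u := by
    intro u
    rw [Submodule.mem_inf, LinearMap.mem_ker, LinearMap.mem_ker, LinearMap.sub_apply,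
      LinearMap.smul_apply, LinearMap.id_apply, sub_eq_zero, LinearMap.sub_apply,
      LinearMap.smul_apply, LinearMap.id_apply, sub_eq_zero]
  obtain ⟨r, w₂, hw₂F, hw₂0, hw₂⟩ := RT.exists_eig ((unit_rr n).KK_symm) F₂ (by
      intro u hu
      rw [hF₂] at hu ⊢
      refine ⟨?_, ?_⟩
      · rw [← Cen_Aop RT.cen_KK, hu.1, map_smul]
      · rw [(RT.cen_Gp p).comm_KK, hu.2, map_smul]) (by
      intro h
      have h1 : w₁ ∈ F₂ := (hF₂ w₁).mpr ⟨hw₁, hw₁F⟩
      rw [h, Submodule.mem_bot] at h1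
      exact hw₁0 h1)
  rw [hF₂] at hw₂F
  have hw₂n : 0 < ‖w₂‖ ^ 2 := by positivity
  -- the bound on `α`
  have h1 := H w₂
  rw [Aop_quad, KK_quad hn0, hw₂, hw₂F.1, real_inner_smul_left, real_inner_smul_left,
    real_inner_self_eq_norm_sq] at h1
  have h2 : κ * (n * (1 - r)) ≤ 2 * α := by
    have h3 : κ * (1 / (n : ℝ) * ((n : ℝ) ^ 2 * (‖w₂‖ ^ 2 - r * ‖w₂‖ ^ 2))) =
        κ * (n * (1 - r)) * ‖w₂‖ ^ 2 := by
      field_simp
    rw [h3] at h1
    refine le_of_mul_le_mul_right ?_ hw₂n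
    calc κ * (n * (1 - r)) * ‖w₂‖ ^ 2 ≤ 2 * (α * ‖w₂‖ ^ 2) := h1
      _ = 2 * α * ‖w₂‖ ^ 2 := by ring
  -- the subrepresentation
  let F₃ : Submodule ℝ (RT.L2 n) :=
    LinearMap.ker (RT.Gp (rr n) p - g • LinearMap.id) ⊓
      LinearMap.ker (RT.KK (rr n) - r • LinearMap.id)
  have hF₃ : ∀ u, u ∈ F₃ ↔ RT.Gp (rr n) p u = g • u ∧ RT.KK (rr n) u = r • u := by
    intro u
    rw [Submodule.mem_inf, LinearMap.mem_ker, LinearMap.mem_ker, LinearMap.sub_apply,
      LinearMap.smul_apply, LinearMap.id_apply, sub_eq_zero, LinearMap.sub_apply,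
      LinearMap.smul_apply, LinearMap.id_apply, sub_eq_zero]
  obtain ⟨k, hk1, hk2, hk3⟩ := level_case hn F₃ (by
      intro h u hu
      rw [hF₃] at hu ⊢
      refine ⟨?_, ?_⟩
      · rw [RT.Gp_comm, hu.1, map_smul]
      · rw [RT.KK_comm, hu.2, map_smul]) (by
      intro h
      have h1 : w₂ ∈ F₃ := (hF₃ w₂).mpr ⟨hw₂F.2, hw₂⟩
      rw [h, Submodule.mem_bot] at h1
      exact hw₂0 h1) hp0 hp1 (fun u hu => ((hF₃ u).mp hu).1) (fun u hu => ((hF₃ u).mp hu).2)
  have h4 : κ * k / 4 ≤ α := by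
    have h5 : (k : ℝ) / 2 ≤ n * (1 - r) := by
      have h6 := mul_le_mul_of_nonneg_left hk1 hnR.le
      have h7 : (n : ℝ) * (k * (1 / (2 * n))) = k / 2 := by field_simp
      rwa [h7] at h6
    have h8 := mul_le_mul_of_nonneg_left h5 hκ.le
    linarith
  have h5 : Real.exp (-(t * α)) ≤ g := by
    have h6 : Real.exp (-(t * α)) ≤ (Real.exp (-(t * κ / 4))) ^ k := by
      rw [← Real.exp_nat_mul]
      apply Real.exp_le_exp.mpr
      nlinarith
    rcases Nat.eq_zero_or_pos k with h0 | h0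
    · rw [h0, pow_zero] at h6
      rw [hk3 h0]; exact h6
    · calc Real.exp (-(t * α)) ≤ (Real.exp (-(t * κ / 4))) ^ k := h6
        _ ≤ (p / 2) ^ k := pow_le_pow_left₀ (Real.exp_pos _).le hexp k
        _ = p ^ k * (1 / 2) ^ k := by rw [← mul_pow]; congr 1; ring
        _ ≤ p ^ k * (1 / 2) := by
            have h7 : (1 / 2 : ℝ) ^ k ≤ (1 / 2) ^ 1 :=
              pow_le_pow_of_le_one (by norm_num) (by norm_num) h0
            rw [pow_one] at h7
            exact mul_le_mul_of_nonneg_left h7 (by positivity)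
        _ ≤ g := hk2
  rw [hgdef] at h5
  linarith

theorem eB_dl (B : Finset (Fin n)) (σ : Perm (Fin n)) :
    RT.eB (rr n) B (RT.dl σ) σ = ((RT.HB B).card : ℝ)⁻¹ := by
  rw [RT.eB_apply, PiLp.smul_apply, RT.sum_apply', smul_eq_mul]
  have h1 : ∀ g ∈ RT.HB B, rr n g (RT.dl σ) σ = if g = 1 then 1 else 0 := by
    intro g _
    rw [rr_apply, RT.dl_apply]
    congr 1
    rw [mul_eq_left]
  rw [Finset.sum_congr rfl h1, Finset.sum_ite_eq', if_pos (RT.mem_HB.mpr (RT.InH.one B)), mul_one]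

theorem Gp_dl_le' {p : ℝ} (hp0 : 0 ≤ p) (hp1 : p ≤ 1) (σ : Perm (Fin n)) :
    (n ! : ℝ) * ⟪RT.Gp (rr n) p (RT.dl σ), RT.dl σ⟫_ℝ ≤ Real.exp (n ^ 2 * p) := by
  rw [RT.inner_dl', RT.Gp_apply, RT.sum_apply', Finset.mul_sum]
  have hq : 0 ≤ 1 - p := by linarith
  have h0 := Finset.sum_pow_mul_eq_add_pow ((n : ℝ) * p) 1 (univ : Finset (Fin n))
  rw [Finset.powerset_univ, Finset.card_univ, Fintype.card_fin] at h0
  have h1 : ∀ A : Finset (Fin n), (n ! : ℝ) *
      ((p ^ A.card * (1 - p) ^ (n - A.card)) • RT.eB (rr n) Aᶜ (RT.dl σ)) σ ≤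
      (n * p) ^ A.card * 1 ^ (n - A.card) := by
    intro A
    rw [PiLp.smul_apply, smul_eq_mul, eB_dl, RT.card_HB, RT.card_compl', one_pow, mul_one, mul_pow]
    have h3 := Nat.factorial_mul_descFactorial (RT.card_le' A)
    have h4 : ((n - A.card)! : ℝ) ≠ 0 := by exact_mod_cast (Nat.factorial_pos _).ne'
    have h5 : (n ! : ℝ) * (p ^ A.card * (1 - p) ^ (n - A.card) * (((n - A.card)! : ℕ) : ℝ)⁻¹) =
        p ^ A.card * (1 - p) ^ (n - A.card) * (n.descFactorial A.card) := by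
      rw [← h3]
      push_cast
      field_simp
    rw [h5]
    have h6 : (1 - p) ^ (n - A.card) ≤ 1 := pow_le_one₀ hq (by linarith)
    have h7 : (n.descFactorial A.card : ℝ) ≤ (n : ℝ) ^ A.card := by
      exact_mod_cast Nat.descFactorial_le_pow n A.card
    calc p ^ A.card * (1 - p) ^ (n - A.card) * (n.descFactorial A.card)
        ≤ p ^ A.card * 1 * (n : ℝ) ^ A.card := by gcongr
      _ = _ := by ring
  refine (Finset.sum_le_sum fun A _ => h1 A).trans ?_
  rw [h0]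
  have h8 : (n : ℝ) * p + 1 ≤ Real.exp (n * p) := Real.add_one_le_exp _
  calc ((n : ℝ) * p + 1) ^ n ≤ (Real.exp (n * p)) ^ n :=
        pow_le_pow_left₀ (by positivity) h8 n
    _ = Real.exp (n ^ 2 * p) := by rw [← Real.exp_nat_mul]; congr 1; ring

theorem t_Lev : Q289.OC.LevStm := by
  intro n c κ t p hn hc hκ ht hp0 hp1 hexp H σ
  have hn0 : 0 < n := by omega
  have hnR : (2 : ℝ) ≤ n := by exact_mod_cast hn
  have hpp : p ≤ 1 := by nlinarith
  have h1 := Eop_le_Gp hn c hκ ht hp0 hp1 hexp (H (RT.L2 n) (rr n) (unit_rr n)) (RT.dl σ)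
  have h2 : ⟪Eop c t (RT.dl σ), RT.dl σ⟫_ℝ = NormedSpace.exp (t • Q289.OC.ipGen c) σ σ := by
    rw [RT.inner_dl', Eop_apply]
    simp only [RT.dl_apply, mul_ite, mul_one, mul_zero, Finset.sum_ite_eq', mem_univ, if_true]
    rfl
  rw [h2] at h1
  calc (n ! : ℝ) * NormedSpace.exp (t • Q289.OC.ipGen c) σ σ
      ≤ (n ! : ℝ) * ⟪RT.Gp (rr n) p (RT.dl σ), RT.dl σ⟫_ℝ :=
        mul_le_mul_of_nonneg_left h1 (by positivity)
    _ ≤ _ := Gp_dl_le' hp0.le hpp σ

end

end Q174.OC
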